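import Mathlib

/-!
Pairwise compatibility of even, real, entire functions with monotonic zeros in the closed first
quadrant does not imply compatibility. The counterexample is the family
`z ^ 2 * exp (j * z ^ 2)`, `j = 0, …, k - 1`.
-/

set_option autoImplicit false

open Finset

namespace Pool.Agent.Results.MP_c4a6c0_an.PairwiseNotEnough

/-- The closed first quadrant. -/
def quadrant : Set ℂ := {z | 0 ≤ z.re ∧ 0 ≤ z.im}

/-- `F` is not identically zero, no two distinct zeros of `F` in the closed first quadrant have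
the same real part, and of two zeros there the one with the larger real part has an imaginary
part that is at least as large. -/
def MonotonicZeros (F : ℂ → ℂ) : Prop :=
  (∃ z, F z ≠ 0) ∧
    (∀ a ∈ quadrant, ∀ b ∈ quadrant, F a = 0 → F b = 0 → a ≠ b → a.re ≠ b.re) ∧
    (∀ a ∈ quadrant, ∀ b ∈ quadrant, F a = 0 → F b = 0 → a.re < b.re → a.im ≤ b.im)

/-- Every combination with nonnegative coefficients that is not identically zero has monotonic
zeros in the closed first quadrant. -/
def Compatible {ι : Type} [Fintype ι] (f : ι → ℂ → ℂ) : Prop :=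
  ∀ c : ι → ℝ, (∀ j, 0 ≤ c j) → (∃ z, ∑ j, (c j : ℂ) * f j z ≠ 0) →
    MonotonicZeros (fun z => ∑ j, (c j : ℂ) * f j z)

/-- If all nonzero zeros of `F` in the quadrant have positive real part and a square with the
same real part `u`, then `F` has monotonic zeros. -/
lemma monotonic_of_line {F : ℂ → ℂ} (u : ℝ) (hF : ∃ z, F z ≠ 0)
    (h : ∀ z ∈ quadrant, F z = 0 → z ≠ 0 → 0 < z.re ∧ z.re ^ 2 - z.im ^ 2 = u) :
    MonotonicZeros F := by
  refine ⟨hF, ?_, ?_⟩
  · intro a ha b hb hFa hFb hab hre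
    by_cases ha0 : a = 0
    · have hb0 : b ≠ 0 := fun h => hab (ha0.trans h.symm)
      have := (h b hb hFb hb0).1
      rw [ha0] at hre
      simp at hre
      linarith
    · by_cases hb0 : b = 0
      · have := (h a ha hFa ha0).1
        rw [hb0] at hre
        simp at hre
        linarith
      · have h1 := (h a ha hFa ha0).2
        have h2 := (h b hb hFb hb0).2
        apply hab
        apply Complex.ext hre
        have h3 : a.im ^ 2 = b.im ^ 2 := by rw [hre] at h1; linarith
        exact (sq_eq_sq₀ ha.2 hb.2).1 h3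
  · intro a ha b hb hFa hFb hre
    by_cases ha0 : a = 0
    · rw [ha0]
      simpa using hb.2
    · by_cases hb0 : b = 0
      · rw [hb0] at hre
        have := (h a ha hFa ha0).1
        simp at hre
        linarith
      · have h1 := (h a ha hFa ha0).2
        have h2 := (h b hb hFb hb0).2
        have ha' := (h a ha hFa ha0).1
        have h3 : a.re ^ 2 < b.re ^ 2 := by nlinarith
        have h4 : a.im ^ 2 ≤ b.im ^ 2 := by linarith
        exact (sq_le_sq₀ ha.2 hb.2).1 h4

/-- The functions of the counterexample. -/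
noncomputable def g (j : ℕ) (z : ℂ) : ℂ := z ^ 2 * Complex.exp (j * z ^ 2)

lemma g_zero_iff (j : ℕ) (z : ℂ) : g j z = 0 ↔ z = 0 := by
  unfold g
  simp [Complex.exp_ne_zero]

/-- Zeros of a combination of two of the functions. -/
lemma pair_zero {i m : ℕ} (hm : 0 < m) {c d : ℝ} (hc : 0 ≤ c) (hd : 0 ≤ d)
    (hne : c ≠ 0 ∨ d ≠ 0) {z : ℂ} (hz : z ∈ quadrant) (hz0 : z ≠ 0)
    (h : (c : ℂ) * g i z + d * g (i + m) z = 0) :
    0 < z.re ∧ z.re ^ 2 - z.im ^ 2 = Real.log (c / d) / m := by
  have hm' : (0 : ℝ) < m := by exact_mod_cast hm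
  have hz2 : z ^ 2 ≠ 0 := pow_ne_zero 2 hz0
  have hfac : (c : ℂ) * g i z + d * g (i + m) z
      = z ^ 2 * Complex.exp (i * z ^ 2) * (c + d * Complex.exp (m * z ^ 2)) := by
    unfold g
    have : ((i + m : ℕ) : ℂ) * z ^ 2 = i * z ^ 2 + m * z ^ 2 := by push_cast; ring
    rw [this, Complex.exp_add]
    ring
  rw [hfac] at h
  have h1 : (c : ℂ) + d * Complex.exp (m * z ^ 2) = 0 := by
    rcases mul_eq_zero.1 h with h | h
    · exfalso
      rcases mul_eq_zero.1 h with h | h
      · exact hz2 h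
      · exact Complex.exp_ne_zero _ h
    · exact h
  have hd0 : d ≠ 0 := by
    intro hd0
    rw [hd0] at h1
    have hc0 : c = 0 := by
      have : (c : ℂ) = 0 := by simpa using h1
      exact_mod_cast this
    rcases hne with h | h
    · exact h hc0
    · exact h hd0
  have hc0 : c ≠ 0 := by
    intro hc0
    rw [hc0] at h1
    have : (d : ℂ) * Complex.exp (m * z ^ 2) = 0 := by simpa using h1
    rcases mul_eq_zero.1 this with h | h
    · exact hd0 (by exact_mod_cast h)
    · exact Complex.exp_ne_zero _ h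
  have hcpos : 0 < c := lt_of_le_of_ne hc (Ne.symm hc0)
  have hdpos : 0 < d := lt_of_le_of_ne hd (Ne.symm hd0)
  have hdC : (d : ℂ) ≠ 0 := by exact_mod_cast hd0
  have h2 : Complex.exp (m * z ^ 2) = ((-(c / d) : ℝ) : ℂ) := by
    push_cast
    field_simp
    linear_combination h1
  have hre : ((m : ℂ) * z ^ 2).re = m * (z.re ^ 2 - z.im ^ 2) := by
    have : ((m : ℂ) * z ^ 2) = ((m : ℝ) : ℂ) * (z ^ 2) := by push_cast; rfl
    rw [this, Complex.re_ofReal_mul, sq, Complex.mul_re]
    ring
  have him : ((m : ℂ) * z ^ 2).im = m * (2 * z.re * z.im) := by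
    have : ((m : ℂ) * z ^ 2) = ((m : ℝ) : ℂ) * (z ^ 2) := by push_cast; rfl
    rw [this, Complex.im_ofReal_mul, sq, Complex.mul_im]
    ring
  have h3 : Real.exp (m * (z.re ^ 2 - z.im ^ 2)) = c / d := by
    have := congrArg norm h2
    rw [Complex.norm_exp, hre, Complex.norm_real, Real.norm_eq_abs, abs_neg,
      abs_of_pos (div_pos hcpos hdpos)] at this
    exact this
  constructor
  · rcases lt_or_eq_of_le hz.1 with h | h
    · exact h
    · exfalso
      have h4 := congrArg Complex.re h2
      rw [Complex.exp_re, hre, him, ← h] at h4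
      simp only [Complex.ofReal_re] at h4
      have h5 : (m : ℝ) * (2 * 0 * z.im) = 0 := by ring
      rw [h5, Real.cos_zero, mul_one] at h4
      have h7 : 0 < c / d := div_pos hcpos hdpos
      have h8 : 0 < -(c / d) := by
        rw [← h4]
        exact Real.exp_pos _
      linarith
  · rw [← h3, Real.log_exp]
    field_simp

lemma pair_compatible {i j : ℕ} (hij : i < j) : Compatible ![g i, g j] := by
  intro c hc hne
  obtain ⟨m, rfl⟩ : ∃ m, j = i + m := ⟨j - i, by omega⟩
  have hm : 0 < m := by omega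
  have hc' : c 0 ≠ 0 ∨ c 1 ≠ 0 := by
    by_contra hcon
    push Not at hcon
    obtain ⟨z, hz⟩ := hne
    apply hz
    simp [Fin.sum_univ_two, hcon.1, hcon.2]
  refine monotonic_of_line (Real.log (c 0 / c 1) / m) hne ?_
  intro z hz hF hz0
  have hF' : (c 0 : ℂ) * g i z + c 1 * g (i + m) z = 0 := by
    simpa [Fin.sum_univ_two] using hF
  exact pair_zero hm (hc 0) (hc 1) hc' hz hz0 hF'

lemma pair_compatible' {i j : ℕ} (hij : j < i) : Compatible ![g i, g j] := by
  intro c hc hne
  have h := pair_compatible hij (fun l => c (1 - l)) (fun l => hc _)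
  have hsum : ∀ z, ∑ l : Fin 2, (c l : ℂ) * (![g i, g j] : Fin 2 → ℂ → ℂ) l z
      = ∑ l : Fin 2, ((fun l : Fin 2 => c (1 - l)) l : ℂ) *
        (![g j, g i] : Fin 2 → ℂ → ℂ) l z := by
    intro z
    simp [Fin.sum_univ_two]
    ring
  have hfun : (fun z => ∑ l : Fin 2, (c l : ℂ) * (![g i, g j] : Fin 2 → ℂ → ℂ) l z)
      = fun z => ∑ l : Fin 2, ((fun l : Fin 2 => c (1 - l)) l : ℂ) *
        (![g j, g i] : Fin 2 → ℂ → ℂ) l z := funext hsum
  rw [hfun]
  apply h
  obtain ⟨z, hz⟩ := hne
  exact ⟨z, by rw [← hsum]; exact hz⟩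

lemma g_monotonic (j : ℕ) : MonotonicZeros (g j) := by
  refine monotonic_of_line 0 ⟨1, ?_⟩ ?_
  · rw [Ne, g_zero_iff]
    exact one_ne_zero
  · intro z _ h hz
    exact absurd ((g_zero_iff j z).1 h) hz

lemma g_differentiable (j : ℕ) : Differentiable ℂ (g j) := by
  unfold g
  fun_prop

lemma g_even (j : ℕ) (z : ℂ) : g j (-z) = g j z := by
  unfold g
  rw [neg_sq]

lemma g_real (j : ℕ) (x : ℝ) : (g j x).im = 0 := by
  have : g j (x : ℂ) = ((x ^ 2 * Real.exp (j * x ^ 2) : ℝ) : ℂ) := by
    unfold g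
    push_cast
    rfl
  rw [this, Complex.ofReal_im]

/-- The coordinates of the square root in the quadrant of `- L + i π`. -/
lemma exists_root (L : ℝ) (hL : 0 < L) : ∃ x y : ℝ, 0 < x ∧ x < y ∧ x ^ 2 - y ^ 2 = - L ∧
    2 * x * y = Real.pi := by
  obtain ⟨z, hz⟩ := IsAlgClosed.exists_pow_nat_eq (⟨-L, Real.pi⟩ : ℂ) (n := 2) (by norm_num)
  have h1 := congrArg Complex.re hz
  have h2 := congrArg Complex.im hz
  rw [sq, Complex.mul_re] at h1
  rw [sq, Complex.mul_im] at h2
  replace h1 : z.re * z.re - z.im * z.im = -L := h1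
  replace h2 : z.re * z.im + z.im * z.re = Real.pi := h2
  have hpi := Real.pi_pos
  have hprod : z.re * z.im = Real.pi / 2 := by linarith
  have hxy : 0 < |z.re| * |z.im| := by
    rw [← abs_mul, hprod]
    exact abs_pos.2 (by positivity)
  have hx : 0 < |z.re| := by
    rcases lt_or_eq_of_le (abs_nonneg z.re) with h | h
    · exact h
    · rw [← h] at hxy; simp at hxy
  refine ⟨|z.re|, |z.im|, hx, ?_, ?_, ?_⟩
  · apply sq_lt_sq.1
    nlinarith
  · rw [sq_abs, sq_abs]
    linarith
  · rw [mul_assoc, ← abs_mul, hprod, abs_of_pos (by positivity)]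
    ring

/-- A zero of the bad combination: with `L = log 2`, both `x + i y` and `y + i x` are zeros of
`2 + 5 X + 2 X ^ 2` at `X = exp (z ^ 2)`. -/
lemma bad_zero {x y L : ℝ} (hL : Real.exp L = 2 ∨ Real.exp L = 1 / 2)
    (h1 : x ^ 2 - y ^ 2 = L) (h2 : 2 * x * y = Real.pi) :
    (2 : ℂ) * g 0 ⟨x, y⟩ + (5 * g 1 ⟨x, y⟩ + 2 * g 2 ⟨x, y⟩) = 0 := by
  have hz2 : (⟨x, y⟩ : ℂ) ^ 2 = (L : ℂ) + Real.pi * Complex.I := by
    apply Complex.ext
    · rw [sq, Complex.mul_re]
      simp
      linarith
    · rw [sq, Complex.mul_im]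
      simp
      linarith
  have hX : Complex.exp ((⟨x, y⟩ : ℂ) ^ 2) = - (Real.exp L : ℂ) := by
    rw [hz2, Complex.exp_add, Complex.exp_pi_mul_I, Complex.ofReal_exp]
    ring
  have hX2 : Complex.exp (2 * (⟨x, y⟩ : ℂ) ^ 2) = (Real.exp L : ℂ) ^ 2 := by
    rw [two_mul, Complex.exp_add, hX]
    ring
  unfold g
  simp only [Nat.cast_zero, Nat.cast_one, Nat.cast_ofNat, zero_mul, one_mul, Complex.exp_zero,
    hX2, hX]
  rcases hL with hL | hL <;> rw [hL] <;> push_cast <;> ring

/-- For every `k ≥ 3` there are `k` distinct even, real, entire functions, each having at least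
one zero in the closed first quadrant and monotonic zeros there, that are pairwise compatible
but not compatible. -/
theorem result : ∀ k : ℕ, 3 ≤ k → ∃ f : Fin k → ℂ → ℂ,
    Function.Injective f ∧
    (∀ j, Differentiable ℂ (f j) ∧ (∀ z, f j (-z) = f j z) ∧ (∀ x : ℝ, (f j x).im = 0) ∧
      MonotonicZeros (f j) ∧ ∃ z ∈ quadrant, f j z = 0) ∧
    (∀ i j, i ≠ j → Compatible ![f i, f j]) ∧
    ¬ Compatible f := by
  intro k hk
  obtain ⟨n, rfl⟩ : ∃ n, k = n + 1 + 1 + 1 := ⟨k - 3, by omega⟩
  refine ⟨fun j => g j, ?_, ?_, ?_, ?_⟩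
  · intro i j hij
    have h := congrFun hij 1
    simp only [g, one_pow, one_mul, mul_one] at h
    have h2 := congrArg norm h
    rw [Complex.norm_exp, Complex.norm_exp] at h2
    simp only [Complex.natCast_re] at h2
    have h3 := Real.exp_injective h2
    exact Fin.ext (by exact_mod_cast h3)
  · intro j
    refine ⟨g_differentiable _, g_even _, g_real _, g_monotonic _, 0, ?_, ?_⟩
    · simp [quadrant]
    · simp [g]
  · intro i j hij
    rcases lt_or_gt_of_ne hij with h | h
    · exact pair_compatible h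
    · exact pair_compatible' h
  · intro hcomp
    let c : Fin (n + 1 + 1 + 1) → ℝ :=
      Fin.cons 2 (Fin.cons 5 (Fin.cons 2 (fun _ => 0)))
    have hc : ∀ j, 0 ≤ c j := by
      intro j
      refine Fin.cases ?_ (fun j => ?_) j
      · simp [c]
      · refine Fin.cases ?_ (fun j => ?_) j
        · simp [c]
        · refine Fin.cases ?_ (fun j => ?_) j
          · simp only [c, Fin.cons_succ, Fin.cons_zero]
            norm_num
          · simp only [c, Fin.cons_succ]
            exact le_rfl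
    have hsum : ∀ z, ∑ j, (c j : ℂ) * (fun j : Fin (n + 1 + 1 + 1) => g j) j z
        = (2 : ℂ) * g 0 z + (5 * g 1 z + 2 * g 2 z) := by
      intro z
      rw [Fin.sum_univ_succ, Fin.sum_univ_succ, Fin.sum_univ_succ]
      simp only [c, Fin.cons_succ, Fin.cons_zero, Fin.val_succ, Fin.val_zero, zero_add,
        Complex.ofReal_zero, zero_mul, Finset.sum_const_zero, add_zero, Complex.ofReal_ofNat]
    have hL : (0 : ℝ) < Real.log 2 := Real.log_pos (by norm_num)
    obtain ⟨x, y, hx, hxy, h1, h2⟩ := exists_root (Real.log 2) hL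
    have hM := hcomp c hc (by
      refine ⟨1, ?_⟩
      rw [hsum]
      intro h0
      have h3 := congrArg Complex.re h0
      have h4 : (2 : ℂ) * g 0 1 + (5 * g 1 1 + 2 * g 2 1)
          = ((2 + (5 * Real.exp 1 + 2 * Real.exp 2) : ℝ) : ℂ) := by
        simp [g]
      rw [h4, Complex.ofReal_re] at h3
      have := Real.exp_pos 1
      have := Real.exp_pos 2
      simp at h3
      linarith)
    have hzα := bad_zero (x := x) (y := y) (L := -Real.log 2)
      (Or.inr (by rw [Real.exp_neg, Real.exp_log (by norm_num)]; norm_num)) h1 h2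
    have hzβ := bad_zero (x := y) (y := x) (L := Real.log 2)
      (Or.inl (Real.exp_log (by norm_num))) (by linarith) (by linarith)
    have h := hM.2.2 ⟨x, y⟩ ⟨hx.le, (hx.trans hxy).le⟩ ⟨y, x⟩ ⟨(hx.trans hxy).le, hx.le⟩
      (by simpa only [hsum] using hzα) (by simpa only [hsum] using hzβ) hxy
    exact absurd h (not_le.2 hxy)

end Pool.Agent.Results.MP_c4a6c0_an.PairwiseNotEnough
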